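import Pool.Agent.Helper13.TR.StA

/-!
# Project TR, module JOI: paths and zero-dimensional chains
-/

set_option autoImplicit false

namespace Pool.Agent.Helper58.TR

open Set Topology Pool.Agent.Helper13.TR

section

variable {X : Type} [TopologicalSpace X]

/-- a singular `0`-simplex is the constant map at its value -/
private theorem sx0 (σ : Sx X 0) : σ = pt (σ (stdSimplex.vertex 0)) := by
  ext t
  have h : t = stdSimplex.vertex 0 := Subsingleton.elim _ _
  rw [h]
  rfl

private theorem face_pt (σ : Sx X 1) (i : Fin 2) :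
    σ.comp (face 0 i) = pt (σ (stdSimplex.vertex (i.succAbove 0))) := by
  rw [sx0 (σ.comp (face 0 i))]
  congr 1
  show σ (stdSimplex.map i.succAbove (stdSimplex.vertex 0)) = _
  rw [stdSimplex.map_vertex]

private theorem bd_single (σ : Sx X 1) :
    bd 0 (Finsupp.single σ (1 : ℤ)) =
      Finsupp.single (pt (σ (stdSimplex.vertex 1))) 1 - Finsupp.single (pt (σ (stdSimplex.vertex 0))) 1 := by
  have h : bd 0 (Finsupp.single σ (1 : ℤ)) =
      ∑ i : Fin 2, ((-1 : ℤ) ^ (i : ℕ)) • Finsupp.single (σ.comp (face 0 i)) (1 : ℤ) := by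
    simp [bd, Finsupp.linearCombination_single]
  rw [h, Fin.sum_univ_two, face_pt, face_pt]
  have e0 : (0 : Fin 2).succAbove (0 : Fin 1) = 1 := rfl
  have e1 : (1 : Fin 2).succAbove (0 : Fin 1) = 0 := rfl
  rw [e0, e1]
  simp [sub_eq_add_neg]

private theorem single_mem {S : Set X} {n : ℕ} {σ : Sx X n} (h : range σ ⊆ S) :
    Finsupp.single σ (1 : ℤ) ∈ cin S n :=
  Finsupp.single_mem_supported ℤ _ h

private theorem joi1 (S : Set X) (a b : X) (h : JoinedIn S a b) :
    ∃ r ∈ cin S 1, bd 0 r = Finsupp.single (pt b) 1 - Finsupp.single (pt a) 1 := by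
  let γ : Path a b := h.somePath
  let σ : Sx X 1 := ⟨fun t => γ (stdSimplexHomeomorphUnitInterval t),
    γ.continuous.comp stdSimplexHomeomorphUnitInterval.continuous⟩
  refine ⟨Finsupp.single σ 1, single_mem ?_, ?_⟩
  · rintro _ ⟨t, rfl⟩
    exact h.somePath_mem _
  · rw [bd_single]
    have h0 : σ (stdSimplex.vertex 0) = a := by
      show γ (stdSimplexHomeomorphUnitInterval (stdSimplex.vertex 0)) = a
      have : stdSimplexHomeomorphUnitInterval (stdSimplex.vertex (0 : Fin 2)) = 0 :=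
        stdSimplexHomeomorphUnitInterval_zero
      rw [this]
      exact γ.source
    have h1 : σ (stdSimplex.vertex 1) = b := by
      show γ (stdSimplexHomeomorphUnitInterval (stdSimplex.vertex 1)) = b
      have : stdSimplexHomeomorphUnitInterval (stdSimplex.vertex (1 : Fin 2)) = 1 :=
        stdSimplexHomeomorphUnitInterval_one
      rw [this]
      exact γ.target
    rw [h0, h1]

/-- the end points of a `1`-simplex in `S` are joined in `S` -/
private theorem joined (S : Set X) (σ : Sx X 1) (h : range σ ⊆ S) :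
    JoinedIn S (σ (stdSimplex.vertex 0)) (σ (stdSimplex.vertex 1)) := by
  have e0 : stdSimplexHomeomorphUnitInterval.symm 0 = (stdSimplex.vertex 0 : Dl 1) := by
    rw [← stdSimplexHomeomorphUnitInterval_zero, Homeomorph.symm_apply_apply]
  have e1 : stdSimplexHomeomorphUnitInterval.symm 1 = (stdSimplex.vertex 1 : Dl 1) := by
    rw [← stdSimplexHomeomorphUnitInterval_one, Homeomorph.symm_apply_apply]
  refine ⟨⟨⟨fun t => σ (stdSimplexHomeomorphUnitInterval.symm t),
    σ.continuous.comp stdSimplexHomeomorphUnitInterval.symm.continuous⟩, ?_, ?_⟩, ?_⟩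
  · show σ (stdSimplexHomeomorphUnitInterval.symm 0) = _
    rw [e0]
  · show σ (stdSimplexHomeomorphUnitInterval.symm 1) = _
    rw [e1]
  · intro t
    exact h ⟨_, rfl⟩

private theorem ev_pt (T : Set X) (x : X) :
    (x ∈ T → ev T (Finsupp.single (pt x) 1) = 1) ∧ (x ∉ T → ev T (Finsupp.single (pt x) 1) = 0) := by
  constructor
  · intro h
    have h' : (pt x) (stdSimplex.vertex 0) ∈ T := h
    simp [ev, Finsupp.linearCombination_single, h']
  · intro h
    have h' : (pt x) (stdSimplex.vertex 0) ∉ T := h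
    simp [ev, Finsupp.linearCombination_single, h']

private theorem joi2 (S T : Set X) (hT : ∀ a b : X, JoinedIn S a b → (a ∈ T ↔ b ∈ T)) :
    ∀ r ∈ cin S 1, ev T (bd 0 r) = 0 := by
  have hle : cin S 1 ≤ LinearMap.ker ((ev T).comp (bd (X := X) 0)) := by
    rw [cin, Finsupp.supported_eq_span_single, Submodule.span_le]
    rintro _ ⟨σ, hσ, rfl⟩
    show ev T (bd 0 (Finsupp.single σ 1)) = 0
    rw [bd_single, map_sub]
    have hj := hT _ _ (joined S σ hσ)
    by_cases h0 : σ (stdSimplex.vertex 0) ∈ T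
    · rw [(ev_pt T _).1 h0, (ev_pt T _).1 (hj.1 h0), sub_self]
    · rw [(ev_pt T _).2 h0, (ev_pt T _).2 (fun h => h0 (hj.2 h)), sub_self]
  intro r hr
  exact hle hr

private theorem ev_univ_single (σ : Sx X 0) (m : ℤ) : ev univ (Finsupp.single σ m) = m := by
  simp [ev, Finsupp.linearCombination_single]

private theorem joi4 (S : Set X) (hS : ∀ a ∈ S, ∀ b ∈ S, JoinedIn S a b) :
    ∀ z ∈ cin S 0, ev univ z = 0 → ∃ r ∈ cin S 1, bd 0 r = z := by
  intro z hz h0
  by_cases hz0 : z = 0
  · exact ⟨0, Submodule.zero_mem _, by rw [hz0, map_zero]⟩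
  obtain ⟨σ₀, hσ₀⟩ : ∃ σ₀, σ₀ ∈ z.support := Finsupp.support_nonempty_iff.2 hz0
  have hsub : ∀ σ ∈ z.support, range σ ⊆ S := fun σ hσ => (Finsupp.mem_supported ℤ z).1 hz hσ
  set a : X := σ₀ (stdSimplex.vertex 0) with ha
  have haS : a ∈ S := hsub σ₀ hσ₀ ⟨_, rfl⟩
  -- every `z' ∈ cin S 0` is `bd r + ev z' • [a]`
  have key : ∀ z' ∈ cin S 0, ∃ r ∈ cin S 1, bd 0 r = z' - ev univ z' • Finsupp.single (pt a) (1 : ℤ) := by
    intro z' hz'
    have hz2 : z' ∈ Submodule.span ℤ ((fun σ : Sx X 0 => Finsupp.single σ (1 : ℤ)) '' {σ : Sx X 0 | range σ ⊆ S}) := by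
      rw [← Finsupp.supported_eq_span_single]; exact hz'
    induction hz2 using Submodule.span_induction with
    | mem x hx =>
      obtain ⟨σ, hσ, rfl⟩ := hx
      have hb : σ (stdSimplex.vertex 0) ∈ S := hσ ⟨_, rfl⟩
      obtain ⟨r, hr, hr2⟩ := joi1 S a _ (hS a haS _ hb)
      refine ⟨r, hr, ?_⟩
      rw [hr2, ev_univ_single, one_smul, ← sx0]
    | zero => exact ⟨0, Submodule.zero_mem _, by simp⟩
    | add x y hx hy ihx ihy =>
      have hx' : x ∈ cin S 0 := by rw [cin, Finsupp.supported_eq_span_single]; exact hx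
      have hy' : y ∈ cin S 0 := by rw [cin, Finsupp.supported_eq_span_single]; exact hy
      obtain ⟨r, hr, hr2⟩ := ihx hx'
      obtain ⟨s, hs, hs2⟩ := ihy hy'
      refine ⟨r + s, Submodule.add_mem _ hr hs, ?_⟩
      rw [map_add, hr2, hs2, map_add, add_smul]
      abel
    | smul m x hx ihx =>
      have hx' : x ∈ cin S 0 := by rw [cin, Finsupp.supported_eq_span_single]; exact hx
      obtain ⟨r, hr, hr2⟩ := ihx hx'
      refine ⟨m • r, Submodule.smul_mem _ _ hr, ?_⟩
      rw [map_smul, hr2, map_smul, smul_sub, smul_assoc]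
  obtain ⟨r, hr, hr2⟩ := key z hz
  refine ⟨r, hr, ?_⟩
  rw [hr2, h0, zero_smul, sub_zero]

end

/-- JOI: paths and zero-dimensional chains. -/
theorem hJOI : StJOI := by
  intro X _ S
  refine ⟨joi1 S, fun T hT => joi2 S T hT, fun T x => ev_pt T x, joi4 S, fun x hx => single_mem ?_⟩
  rintro _ ⟨t, rfl⟩
  exact hx

end Pool.Agent.Helper58.TR
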